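import Pool.Agent.MWK.Stmts

/-!
# MWK row TRU (helper43)

Truncation: only the first two occurrences of every letter.
-/

set_option autoImplicit false

namespace Pool.Agent.MWK.H43

open Pool.Agent.Helper14_MV Pool.Agent.Helper2_MV

theorem tru (hFre : FreStmt) : TruStmt := by
  intro θ hK u
  induction u using List.reverseRecOn with
  | nil => exact ⟨[], RR.refl _, by simp, fun _ _ _ => Iff.rfl, fun _ _ _ _ _ => Iff.rfl⟩
  | append_singleton u z ih =>
    obtain ⟨u', h, h2, hA⟩ := ih
    have hm : ∀ y, y ∈ u ↔ y ∈ u' := fun y => hA.mem y
    have cnt : ∀ (l : List ℕ) (x : ℕ), (l ++ [z]).count x = l.count x + [z].count x := fun l x =>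
      List.count_append
    by_cases hz : 2 ≤ u.count z
    · have hc : ∀ x i, i ≤ 1 → (i + 1 ≤ (u ++ [z]).count x ↔ i + 1 ≤ u'.count x) := by
        intro x i hi
        by_cases hx : x = z
        · subst hx
          have h1 := (hA.1 x 1 (by omega)).1 hz
          rw [cnt]
          constructor <;> intro _ <;> omega
        · have h0 : [z].count x = 0 := by
            rw [List.count_eq_zero]
            simpa using hx
          rw [cnt, h0, Nat.add_zero]
          exact hA.1 x i hi
      refine ⟨u', ?_, h2, hc, ?_⟩
      · have h1 := hFre θ hK u [z] [] (by
          intro l hl
          rw [List.mem_singleton] at hl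
          rw [hl]
          exact hz)
        rw [List.append_nil, List.append_nil] at h1
        exact θ.trans h1 h
      · intro y x i hi _
        by_cases hy : y ∈ u
        · rw [pre_append_mem hy]
          exact hA.2 y x i hi trivial
        · have hyz : y ≠ z := by
            rintro rfl
            exact hy (List.count_pos_iff.1 (by omega))
          have hy1 : y ∉ u ++ [z] := by
            rw [List.mem_append, List.mem_singleton]
            rintro (h1 | h1)
            · exact hy h1
            · exact hyz h1
          rw [pre_not_mem hy1, pre_not_mem (fun h1 => hy ((hm y).2 h1))]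
          exact hc x i hi
    · have hk : ∀ x i k, i ≤ 1 → (i + 1 ≤ u.count x + k ↔ i + 1 ≤ u'.count x + k) := by
        intro x i k hi
        have a0 := hA.1 x 0 (by omega)
        have a1 := hA.1 x 1 (by omega)
        omega
      refine ⟨u' ++ [z], h.append (RR.refl [z]), ?_, ?_, ?_⟩
      · intro x
        rw [cnt]
        by_cases hx : x = z
        · subst hx
          have a1 := hA.1 x 1 (by omega)
          have : [x].count x = 1 := by simp
          omega
        · have h0 : [z].count x = 0 := by
            rw [List.count_eq_zero]
            simpa using hx
          have := h2 x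
          omega
      · intro x i hi
        rw [cnt, cnt]
        exact hk x i _ hi
      · intro y x i hi _
        by_cases hy : y ∈ u
        · rw [pre_append_mem hy, pre_append_mem ((hm y).1 hy)]
          exact hA.2 y x i hi trivial
        · rw [pre_append hy, pre_append (fun h1 => hy ((hm y).2 h1)), List.count_append,
            List.count_append]
          exact hk x i _ hi

end Pool.Agent.MWK.H43
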